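import Mathlib
import Pool.Agent.Q20.DetGap.Graph

/-!
The determining set of the symmetric group of degree 7 contains 6 but not 5, so base size sets and
determining sets are not always intervals `{1, …, k}`.
-/

namespace Pool.Agent.Results.MP_2beb52_al.DeterminingSetGap

open Q20.DetGap Equiv Equiv.Perm

/-- The least cardinality of a base of the action of a group `G` on a finite set `X` is `b`.
A base is a set of points whose pointwise stabilizer is trivial. -/
def HasBaseSize (G : Type) [Group G] (X : Type) [MulAction G X] (b : ℕ) : Prop :=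
  IsLeast {n : ℕ | ∃ B : Finset X, B.card = n ∧ ∀ g : G, (∀ x ∈ B, g • x = x) → g = 1} b

/-- The natural action of the automorphism group of a graph on its vertices. -/
instance autAction {V : Type} (Γ : SimpleGraph V) : MulAction (Γ ≃g Γ) V where
  smul g v := g v
  one_smul _ := rfl
  mul_smul _ _ _ := rfl

/-- The base size set `𝓑(G)`: base sizes of all faithful actions of `G` on finite sets. -/
def baseSizeSet (G : Type) [Group G] : Set ℕ :=
  {b | ∃ (X : Type) (_ : Finite X) (_ : MulAction G X),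
    (∀ g : G, (∀ x : X, g • x = x) → g = 1) ∧ HasBaseSize G X b}

/-- The determining set `𝓓(G)`: base sizes of the natural action of `Aut Γ` on `V(Γ)`, over all
finite simple graphs `Γ` with `Aut Γ ≅ G`. -/
def determiningSet (G : Type) [Group G] : Set ℕ :=
  {b | ∃ (V : Type) (_ : Finite V) (Γ : SimpleGraph V),
    Nonempty ((Γ ≃g Γ) ≃* G) ∧ HasBaseSize (Γ ≃g Γ) V b}

lemma six_mem : 6 ∈ determiningSet (Perm (Fin 7)) := by
  classical
  refine ⟨Fin 7, inferInstance, ⊥, ⟨?_⟩, ?_, ?_⟩
  · exact
      { toFun := fun g => g.toEquiv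
        invFun := fun e => ⟨e, by intro a b; simp⟩
        left_inv := fun g => by ext; rfl
        right_inv := fun e => by ext; rfl
        map_mul' := fun g h => rfl }
  · refine ⟨Finset.univ.erase 6, by decide, ?_⟩
    intro g hg
    ext x
    have h1 : ∀ x : Fin 7, x ≠ 6 → g x = x := by
      intro x hx
      exact hg x (Finset.mem_erase.mpr ⟨hx, Finset.mem_univ _⟩)
    by_cases hx : x = 6
    · subst hx
      by_contra h
      have h2 : g 6 ≠ 6 := fun h' => h (by rw [h']; rfl)
      have h3 := h1 (g 6) h2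
      exact h2 (g.injective h3)
    · rw [h1 x hx]; rfl
  · rintro n ⟨B, rfl, hB⟩
    by_contra hlt
    have hcompl : 1 < (Bᶜ).card := by
      rw [Finset.card_compl, Fintype.card_fin]
      omega
    obtain ⟨x, hx, y, hy, hxy⟩ := Finset.one_lt_card.mp hcompl
    rw [Finset.mem_compl] at hx hy
    have h1 := hB ⟨swap x y, by intro a b; simp⟩ (by
      intro v hv
      show swap x y v = v
      apply swap_apply_of_ne_of_ne
      · rintro rfl; exact hx hv
      · rintro rfl; exact hy hv)
    have h2 := congrArg (fun f : ((⊥ : SimpleGraph (Fin 7)) ≃g ⊥) => f x) h1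
    have h3 : swap x y x = x := h2
    rw [swap_apply_left] at h3
    exact hxy h3.symm

lemma five_notMem : 5 ∉ determiningSet (Perm (Fin 7)) := by
  rintro ⟨V, hV, Γ, ⟨φ⟩, ⟨B, hB, hB'⟩, hmin⟩
  have e : Fin 7 ≃ P := (Fintype.equivFinOfCardEq (by rfl)).symm
  let ψ : S ≃* (Γ ≃g Γ) := (Equiv.permCongrHom e).symm.trans φ.symm
  refine no_five Γ ψ ?_ B ?_ hB
  · intro C hC
    have h5 : (5 : ℕ) ≤ C.card := hmin ⟨C, rfl, fun g hg => by
      ext x
      exact hC g hg x⟩
    omega
  · intro g hg x
    have := hB' g hg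
    rw [this]; rfl

/-- The symmetric group of degree seven has a determining set with a gap: `6` is in it and `5` is
not. Hence it is not true that for all nontrivial finite groups `G` the sets `𝓑(G)` and `𝓓(G)`
are both of the form `{1, …, k}`. -/
theorem result :
    (6 ∈ determiningSet (Perm (Fin 7)) ∧ 5 ∉ determiningSet (Perm (Fin 7))) ∧
    (¬ ∃ k : ℕ, determiningSet (Perm (Fin 7)) = Set.Icc 1 k) ∧
    ¬ ∀ (G : Type) [Group G] [Finite G] [Nontrivial G],
      (∃ k : ℕ, 1 ≤ k ∧ baseSizeSet G = Set.Icc 1 k) ∧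
      (∃ k : ℕ, 1 ≤ k ∧ determiningSet G = Set.Icc 1 k) := by
  have h : ¬ ∃ k : ℕ, determiningSet (Perm (Fin 7)) = Set.Icc 1 k := by
    rintro ⟨k, hk⟩
    have h6 : 6 ∈ Set.Icc 1 k := hk ▸ six_mem
    have h5 : 5 ∉ Set.Icc 1 k := hk ▸ five_notMem
    rw [Set.mem_Icc] at h6 h5
    omega
  refine ⟨⟨six_mem, five_notMem⟩, h, ?_⟩
  intro hall
  obtain ⟨-, k, -, hk⟩ := hall (Perm (Fin 7))
  exact h ⟨k, hk⟩

end Pool.Agent.Results.MP_2beb52_al.DeterminingSetGap
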